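import Pool.Agent.Lead.ExtremalPairs

set_option autoImplicit false

open scoped NNReal

namespace Pool.Agent.Results.MP_199736_pr.BothTimes

open Pool.Agent.Lead.ExtremalPairs

/-- In discrete time and in continuous time alike there is a monotone reversible irreducible Markov
chain on the five-element chain `0 < 1 < 2 < 3 < 4` such that at every time `t > 0` the starting
pair `(0, 1)` has strictly larger total variation distance than the extremal starting pair
`(⊤, ⊥)`. -/
theorem result :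
    (∃ P : ℕ → Matrix (Fin 5) (Fin 5) ℝ,
      IsMarkovChain P ∧ IsMonotoneChain P ∧ IsReversibleChain P ∧
      (∀ t, 2 ≤ t → ∀ x y, 0 < P t x y) ∧
      ∀ t, 1 ≤ t → tv (P t ⊤) (P t ⊥) < tv (P t 0) (P t 1)) ∧
    (∃ P : ℝ≥0 → Matrix (Fin 5) (Fin 5) ℝ,
      IsMarkovChain P ∧ IsMonotoneChain P ∧ IsReversibleChain P ∧
      (∀ t, 0 < t → ∀ x y, 0 < P t x y) ∧
      ∀ t, 0 < t → tv (P t ⊤) (P t ⊥) < tv (P t 0) (P t 1)) :=
  ⟨⟨PD, PD_chain, PD_mono, PD_rev, PD_pos, PD_tv⟩, ⟨PC, PC_chain, PC_mono, PC_rev, PC_pos, PC_tv⟩⟩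

end Pool.Agent.Results.MP_199736_pr.BothTimes
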