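import Pool.Agent.Lead.ExtremalPairs

set_option autoImplicit false

open scoped NNReal

namespace Pool.Agent.Results.MP_199736_pr.ContinuousTime

open Pool.Agent.Lead.ExtremalPairs

/-- There is a continuous-time monotone reversible Markov chain on the five-element chain
`0 < 1 < 2 < 3 < 4` (irreducible: all entries of `P t` are positive for `t > 0`) such that at
every time `t > 0` the starting pair `(0, 1)` has strictly larger total variation distance than the
extremal starting pair `(⊤, ⊥)`. -/
theorem result : ∃ P : ℝ≥0 → Matrix (Fin 5) (Fin 5) ℝ,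
    IsMarkovChain P ∧ IsMonotoneChain P ∧ IsReversibleChain P ∧
    (∀ t, 0 < t → ∀ x y, 0 < P t x y) ∧
    ∀ t, 0 < t → tv (P t ⊤) (P t ⊥) < tv (P t 0) (P t 1) :=
  ⟨PC, PC_chain, PC_mono, PC_rev, PC_pos, PC_tv⟩

end Pool.Agent.Results.MP_199736_pr.ContinuousTime
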