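import Pool.Agent.Lead.ExtremalPairs

set_option autoImplicit false

namespace Pool.Agent.Results.MP_199736_pr.DiscreteTime

open Pool.Agent.Lead.ExtremalPairs

/-- There is a discrete-time monotone reversible Markov chain on the five-element chain
`0 < 1 < 2 < 3 < 4` (irreducible and aperiodic: all entries of `P t` are positive for `t ≥ 2`) such
that at every time `t ≥ 1` the starting pair `(0, 1)` has strictly larger total variation distance
than the extremal starting pair `(⊤, ⊥)`. -/
theorem result : ∃ P : ℕ → Matrix (Fin 5) (Fin 5) ℝ,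
    IsMarkovChain P ∧ IsMonotoneChain P ∧ IsReversibleChain P ∧
    (∀ t, 2 ≤ t → ∀ x y, 0 < P t x y) ∧
    ∀ t, 1 ≤ t → tv (P t ⊤) (P t ⊥) < tv (P t 0) (P t 1) :=
  ⟨PD, PD_chain, PD_mono, PD_rev, PD_pos, PD_tv⟩

end Pool.Agent.Results.MP_199736_pr.DiscreteTime
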